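import Mathlib

/-!
# Infinitely many `n` for which the abcd equation is solvable but its integer form is not

For a positive integer `n` the abcd equation is `n = (a/b + b/a)(c/d + d/c)` in positive integers, and
its integer form is `n = (a + 1/a)(b + 1/b)` in positive integers.

The recurrence `u w = v ^ 4 + 1` started at `2, 17` produces pairs `(u, v)` with `u ∣ v ^ 4 + 1` and
`v ∣ u ^ 4 + 1`, and each of them gives a solvable `n = ((u ^ 2 + v ^ 2) ^ 2 + 1) / (u v)`.  Modulo `11`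
the recurrence is periodic with period `12` and returns to `(2, 6)`, where `n` is `6` modulo `11`.
If the integer form is solvable for `n`, then `(n - 4) (5 n - 16)` is a square, and this is impossible
for `n ≡ 6 (mod 11)`.
-/

set_option autoImplicit false

namespace Pool.Agent.Results.MP_2bef4d_nt.AbcdInfinite

/-- The abcd equation is solvable for `n`: some positive integers `a, b, c, d` satisfy
`n = (a/b + b/a)(c/d + d/c)`. -/
def AbcdSolvable (n : ℕ) : Prop :=
  ∃ a b c d : ℕ, 0 < a ∧ 0 < b ∧ 0 < c ∧ 0 < d ∧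
    (n : ℚ) = ((a : ℚ) / b + (b : ℚ) / a) * ((c : ℚ) / d + (d : ℚ) / c)

/-- The integer form is solvable for `n`: some positive integers `a, b` satisfy
`n = (a + 1/a)(b + 1/b)`. -/
def IntegerFormSolvable (n : ℕ) : Prop :=
  ∃ a b : ℕ, 0 < a ∧ 0 < b ∧ (n : ℚ) = ((a : ℚ) + 1 / a) * ((b : ℚ) + 1 / b)

/-- Vieta jumping: `a ^ 2 + b ^ 2 + 1 = k a b` forces `k = 3`. -/
lemma vieta (N : ℕ) : ∀ a b k : ℤ, 0 < a → 0 < b → a + b ≤ N → a ^ 2 + b ^ 2 + 1 = k * (a * b) →
    k = 3 := by
  induction N using Nat.strong_induction_on with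
  | _ N ih =>
    have key : ∀ a b k : ℤ, 0 < a → 0 < b → a ≤ b → a + b ≤ N →
        a ^ 2 + b ^ 2 + 1 = k * (a * b) → k = 3 := by
      intro a b k ha hb hab hN h
      rcases hab.lt_or_eq with hlt | heq
      · -- jump
        have hb' : b * (k * a - b) = a ^ 2 + 1 := by linear_combination -h
        have hpos : 0 < k * a - b := by
          by_contra hc
          push Not at hc
          have : b * (k * a - b) ≤ 0 := mul_nonpos_of_nonneg_of_nonpos hb.le hc
          nlinarith [sq_nonneg a]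
        have hle : k * a - b ≤ a := by
          by_contra hc
          push Not at hc
          have h1 : (a + 1) * (a + 1) ≤ b * (k * a - b) :=
            mul_le_mul (by omega) (by omega) (by omega) hb.le
          nlinarith
        have hNpos : 1 ≤ N := by omega
        have h2 : a ^ 2 + (k * a - b) ^ 2 + 1 = k * (a * (k * a - b)) := by
          linear_combination h
        exact ih (N - 1) (by omega) a (k * a - b) k ha hpos (by push_cast [hNpos]; omega) h2
      · subst heq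
        have h3 : a ^ 2 * (k - 2) = 1 := by linear_combination -h
        have h4 : k - 2 = 1 := by
          have h5 : IsUnit (k - 2) := IsUnit.of_mul_eq_one (a ^ 2) (by rw [mul_comm]; exact h3)
          rcases Int.isUnit_iff.1 h5 with h6 | h6
          · exact h6
          · rw [h6] at h3
            nlinarith [sq_nonneg a]
        omega
    intro a b k ha hb hN h
    rcases le_total a b with hab | hab
    · exact key a b k ha hb hab hN h
    · exact key b a k hb ha hab (by omega) (by linear_combination h)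

/-- If the integer form is solvable for `n`, then `(n - 4) (5 n - 16)` is a square. -/
lemma square_of_integerForm {n : ℕ} (h : IntegerFormSolvable n) :
    ∃ y : ℤ, ((n : ℤ) - 4) * (5 * n - 16) = y ^ 2 := by
  obtain ⟨a, b, ha, hb, h⟩ := h
  have haq : (a : ℚ) ≠ 0 := by positivity
  have hbq : (b : ℚ) ≠ 0 := by positivity
  have h1 : (n : ℚ) * (a * b) = ((a : ℚ) ^ 2 + 1) * ((b : ℚ) ^ 2 + 1) := by
    rw [h]; field_simp
  have h2 : (n : ℤ) * (a * b) = ((a : ℤ) ^ 2 + 1) * ((b : ℤ) ^ 2 + 1) := by exact_mod_cast h1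
  have haz : (0 : ℤ) < a := by exact_mod_cast ha
  have hbz : (0 : ℤ) < b := by exact_mod_cast hb
  have h3 : (a : ℤ) ^ 2 + (b : ℤ) ^ 2 + 1 = ((n : ℤ) - a * b) * (a * b) := by
    linear_combination -h2
  have h4 := vieta (a + b) a b ((n : ℤ) - a * b) haz hbz (by push_cast; exact le_refl _) h3
  have h5 : (n : ℤ) = a * b + 3 := by linarith
  refine ⟨((b : ℤ) - a) * (a + b), ?_⟩
  rw [h4] at h3
  have e1 : ((b : ℤ) - a) ^ 2 = a * b - 1 := by linear_combination h3
  have e2 : ((a : ℤ) + b) ^ 2 = 5 * (a * b) - 1 := by linear_combination h3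
  rw [mul_pow, e1, e2, h5]
  ring

/-- The invariant of the recurrence. -/
def Inv (p : ℕ × ℕ) : Prop :=
  0 < p.1 ∧ p.1 < p.2 ∧ p.1 ∣ p.2 ^ 4 + 1 ∧ p.2 ∣ p.1 ^ 4 + 1

/-- One step of the recurrence `u w = v ^ 4 + 1`. -/
def step (p : ℕ × ℕ) : ℕ × ℕ := (p.2, (p.2 ^ 4 + 1) / p.1)

/-- The sequence of the pairs. -/
def sq : ℕ → ℕ × ℕ
  | 0 => (2, 17)
  | k + 1 => step (sq k)

lemma step_mul {p : ℕ × ℕ} (h : Inv p) : p.1 * (step p).2 = p.2 ^ 4 + 1 :=
  Nat.mul_div_cancel' h.2.2.1

lemma inv_step {p : ℕ × ℕ} (h : Inv p) : Inv (step p) := by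
  obtain ⟨u, v⟩ := p
  have hm : u * (step (u, v)).2 = v ^ 4 + 1 := step_mul h
  obtain ⟨hu, huv, h1, h2⟩ := h
  simp only at hu huv h1 h2
  set w := (step (u, v)).2 with hw
  have hs : step (u, v) = (v, w) := rfl
  rw [hs]
  have hv : 0 < v := by omega
  have hcop : Nat.Coprime v (u ^ 4) := by
    have : Nat.Coprime (u ^ 4 + 1) (u ^ 4) := by
      rw [Nat.coprime_self_add_left]; exact Nat.coprime_one_left _
    exact Nat.Coprime.coprime_dvd_left h2 this
  have hwd : w ∣ v ^ 4 + 1 := ⟨u, by rw [mul_comm w u]; exact hm.symm⟩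
  refine ⟨hv, ?_, ?_, hwd⟩
  · show v < w
    by_contra hc
    push Not at hc
    have h3 : u * w ≤ v * v := Nat.mul_le_mul huv.le hc
    have h4 : v * v ≤ v ^ 4 := by
      calc v * v = v ^ 2 := by ring
        _ ≤ v ^ 4 := Nat.pow_le_pow_right hv (by norm_num)
    omega
  · show v ∣ w ^ 4 + 1
    have h5 : v ∣ u ^ 4 * (w ^ 4 + 1) := by
      have : u ^ 4 * (w ^ 4 + 1) = (u ^ 4 + 1) + v ^ 4 * ((v ^ 4) ^ 3 + 4 * (v ^ 4) ^ 2 +
          6 * v ^ 4 + 4) := by
        calc u ^ 4 * (w ^ 4 + 1) = (u * w) ^ 4 + u ^ 4 := by ring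
          _ = (v ^ 4 + 1) ^ 4 + u ^ 4 := by rw [hm]
          _ = _ := by ring
      rw [this]
      exact dvd_add h2 (Dvd.dvd.mul_right (dvd_pow_self v (by norm_num)) _)
    exact hcop.dvd_of_dvd_mul_left h5

lemma inv_sq (k : ℕ) : Inv (sq k) := by
  induction k with
  | zero => exact ⟨by decide, by decide, by decide, by decide⟩
  | succ k ih => exact inv_step ih

/-- The table of the orbit modulo `11`. -/
def tab (i : ℕ) : ℕ × ℕ :=
  match i with
  | 0 => (2, 6)
  | 1 => (6, 5)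
  | 2 => (5, 9)
  | 3 => (9, 10)
  | 4 => (10, 10)
  | 5 => (10, 9)
  | 6 => (9, 5)
  | 7 => (5, 6)
  | 8 => (6, 2)
  | 9 => (2, 1)
  | 10 => (1, 1)
  | _ => (1, 2)

lemma mod_step {u v w : ℕ} (h : u * w = v ^ 4 + 1) : (u % 11) * (w % 11) % 11 =
    ((v % 11) ^ 4 + 1) % 11 := by
  have h1 : u * w ≡ v ^ 4 + 1 [MOD 11] := by rw [h]
  have h2 : (u % 11) * (w % 11) ≡ u * w [MOD 11] :=
    (Nat.mod_modEq u 11).mul (Nat.mod_modEq w 11)
  have h3 : (v % 11) ^ 4 + 1 ≡ v ^ 4 + 1 [MOD 11] :=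
    ((Nat.mod_modEq v 11).pow 4).add_right 1
  exact (h2.trans h1).trans h3.symm

lemma sq_mod (k : ℕ) : ((sq k).1 % 11, (sq k).2 % 11) = tab (k % 12) := by
  induction k with
  | zero => rfl
  | succ k ih =>
    have hm := mod_step (step_mul (inv_sq k))
    have e1 : (sq (k + 1)).1 = (sq k).2 := rfl
    have e2 : (sq (k + 1)).2 = (step (sq k)).2 := rfl
    rw [e1, e2]
    have h1 : (sq k).1 % 11 = (tab (k % 12)).1 := congrArg Prod.fst ih
    have h2 : (sq k).2 % 11 = (tab (k % 12)).2 := congrArg Prod.snd ih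
    rw [h1, h2] at hm
    rw [h2]
    have hlt : (step (sq k)).2 % 11 < 11 := Nat.mod_lt _ (by norm_num)
    generalize (step (sq k)).2 % 11 = w at hm hlt ⊢
    have hk : k % 12 < 12 := Nat.mod_lt _ (by norm_num)
    have hk1 : (k + 1) % 12 = (k % 12 + 1) % 12 := by omega
    rw [hk1]
    generalize k % 12 = i at hm hk ⊢
    interval_cases i <;> interval_cases w <;> simp [tab] at hm ⊢

/-- The number attached to a pair. -/
def num (p : ℕ × ℕ) : ℕ := ((p.1 ^ 2 + p.2 ^ 2) ^ 2 + 1) / (p.1 * p.2)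

lemma num_mul {p : ℕ × ℕ} (h : Inv p) : (p.1 * p.2) * num p = (p.1 ^ 2 + p.2 ^ 2) ^ 2 + 1 := by
  obtain ⟨u, v⟩ := p
  obtain ⟨hu, huv, h1, h2⟩ := h
  simp only at hu huv h1 h2
  apply Nat.mul_div_cancel'
  show u * v ∣ (u ^ 2 + v ^ 2) ^ 2 + 1
  have hcop : Nat.Coprime u v := by
    have h3 : Nat.Coprime (u ^ 4 + 1) u := by
      have : u ^ 4 + 1 = 1 + u * u ^ 3 := by ring
      rw [this, Nat.coprime_add_mul_left_left]
      exact Nat.coprime_one_left _
    exact (Nat.Coprime.coprime_dvd_left h2 h3).symm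
  apply hcop.mul_dvd_of_dvd_of_dvd
  · have : (u ^ 2 + v ^ 2) ^ 2 + 1 = (v ^ 4 + 1) + u * (u ^ 3 + 2 * u * v ^ 2) := by ring
    rw [this]
    exact dvd_add h1 (dvd_mul_right _ _)
  · have : (u ^ 2 + v ^ 2) ^ 2 + 1 = (u ^ 4 + 1) + v * (v ^ 3 + 2 * v * u ^ 2) := by ring
    rw [this]
    exact dvd_add h2 (dvd_mul_right _ _)

lemma num_pos {p : ℕ × ℕ} (h : Inv p) : 0 < num p := by
  have := num_mul h
  rcases Nat.eq_zero_or_pos (num p) with h0 | h0
  · rw [h0] at this; simp at this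
  · exact h0

lemma solvable_num {p : ℕ × ℕ} (h : Inv p) : AbcdSolvable (num p) := by
  have hm := num_mul h
  obtain ⟨u, v⟩ := p
  obtain ⟨hu, huv, -, -⟩ := h
  simp only at hu huv hm
  have hv : 0 < v := by omega
  refine ⟨u ^ 2 + v ^ 2, 1, u, v, by positivity, one_pos, hu, hv, ?_⟩
  have hmq : ((u : ℚ) * v) * (num (u, v) : ℚ) = ((u : ℚ) ^ 2 + v ^ 2) ^ 2 + 1 := by
    exact_mod_cast hm
  have huq : (u : ℚ) ≠ 0 := by positivity
  have hvq : (v : ℚ) ≠ 0 := by positivity
  have hs : ((u : ℚ) ^ 2 + v ^ 2) ≠ 0 := by positivity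
  push_cast
  field_simp
  linear_combination hmq

/-- the numbers get large -/
lemma lt_num {p : ℕ × ℕ} (h : Inv p) : p.2 < num p := by
  have hm := num_mul h
  obtain ⟨u, v⟩ := p
  obtain ⟨hu, huv, -, -⟩ := h
  simp only at hu huv hm ⊢
  by_contra hc
  push Not at hc
  have h1 : u * v * num (u, v) ≤ v * v * v := by
    apply Nat.mul_le_mul _ hc
    exact Nat.mul_le_mul huv.le le_rfl
  have h2 : v * v * v ≤ v ^ 4 := by
    calc v * v * v = v ^ 3 := by ring
      _ ≤ v ^ 4 := Nat.pow_le_pow_right (by omega) (by norm_num)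
  have h3 : v ^ 4 ≤ (u ^ 2 + v ^ 2) ^ 2 := by
    calc v ^ 4 = (v ^ 2) ^ 2 := by ring
      _ ≤ (u ^ 2 + v ^ 2) ^ 2 := Nat.pow_le_pow_left (by omega) 2
  omega

lemma lt_sq (k : ℕ) : k < (sq k).2 := by
  induction k with
  | zero => decide
  | succ k ih =>
    have h1 := (inv_sq (k + 1)).2.1
    have e1 : (sq (k + 1)).1 = (sq k).2 := rfl
    rw [e1] at h1
    omega

lemma not_integerForm (j : ℕ) : ¬ IntegerFormSolvable (num (sq (12 * j))) := by
  intro h
  obtain ⟨y, hy⟩ := square_of_integerForm h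
  have hmod := sq_mod (12 * j)
  have h0 : 12 * j % 12 = 0 := by omega
  rw [h0] at hmod
  have h1 : (sq (12 * j)).1 % 11 = 2 := congrArg Prod.fst hmod
  have h2 : (sq (12 * j)).2 % 11 = 6 := congrArg Prod.snd hmod
  have hm := num_mul (inv_sq (12 * j))
  generalize num (sq (12 * j)) = n at hy hm
  generalize (sq (12 * j)).1 = u at h1 hm
  generalize (sq (12 * j)).2 = v at h2 hm
  have hz : ((u : ZMod 11) * v) * n = ((u : ZMod 11) ^ 2 + v ^ 2) ^ 2 + 1 := by
    have h3 := congrArg (Nat.cast : ℕ → ZMod 11) hm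
    push_cast at h3
    exact h3
  have hu : (u : ZMod 11) = 2 := by
    rw [← Nat.mod_add_div u 11, h1]; push_cast
    have : ((11 : ℕ) : ZMod 11) = 0 := ZMod.natCast_self 11
    push_cast at this
    rw [this]; ring
  have hv : (v : ZMod 11) = 6 := by
    rw [← Nat.mod_add_div v 11, h2]; push_cast
    have : ((11 : ℕ) : ZMod 11) = 0 := ZMod.natCast_self 11
    push_cast at this
    rw [this]; ring
  rw [hu, hv] at hz
  have hyz : ((n : ZMod 11) - 4) * (5 * n - 16) = (y : ZMod 11) ^ 2 := by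
    have := congrArg (Int.cast : ℤ → ZMod 11) hy
    push_cast at this
    exact this
  generalize (n : ZMod 11) = m at hz hyz
  generalize (y : ZMod 11) = t at hyz
  revert m t
  decide

/-- **Q1 of the problem, answered affirmatively.**  There are infinitely many positive integers `n` for
which the abcd equation is solvable but its integer form is not. -/
theorem result : {n : ℕ | 0 < n ∧ AbcdSolvable n ∧ ¬ IntegerFormSolvable n}.Infinite := by
  rw [Set.infinite_iff_exists_gt]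
  intro N
  refine ⟨num (sq (12 * N)), ⟨num_pos (inv_sq _), solvable_num (inv_sq _), not_integerForm N⟩, ?_⟩
  have h1 := lt_num (inv_sq (12 * N))
  have h2 := lt_sq (12 * N)
  omega

end Pool.Agent.Results.MP_2bef4d_nt.AbcdInfinite
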